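import Pool.Agent.N290.RJ.Stm

/-!
Project RJ (helper290), C10: the volume of the ball is positive and finite. Author: helper438.
-/

set_option autoImplicit false

open Complex MeasureTheory Set Filter Topology

namespace Pool.Agent.N438.RJ

theorem C10 (d : ℕ) : Pool.Agent.N290.RJ.C10 d := by
  have h0 : 0 < volume (Pool.Agent.N290.RJ.B d) :=
    Pool.Agent.N290.RJ.B_open.measure_pos volume ⟨0, Pool.Agent.N290.RJ.zero_mem_B⟩
  refine ⟨h0, ?_⟩
  have h1 : Pool.Agent.N290.RJ.B d ⊆ Metric.closedBall 0 1 := by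
    intro z hz
    have hz' : ‖z.1‖ ^ 2 + ∑ i, ‖z.2 i‖ ^ 2 < 1 := hz
    have hs : 0 ≤ ∑ i, ‖z.2 i‖ ^ 2 := Finset.sum_nonneg fun i _ => sq_nonneg _
    rw [mem_closedBall_zero_iff, Prod.norm_def]
    refine max_le ?_ ?_
    · have h2 : ‖z.1‖ ^ 2 ≤ 1 := by linarith
      nlinarith [norm_nonneg z.1]
    · rw [pi_norm_le_iff_of_nonneg zero_le_one]
      intro i
      have h2 : ‖z.2 i‖ ^ 2 ≤ ∑ i, ‖z.2 i‖ ^ 2 :=
        Finset.single_le_sum (f := fun i => ‖z.2 i‖ ^ 2) (fun i _ => sq_nonneg _)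
          (Finset.mem_univ i)
      have h3 : ‖z.2 i‖ ^ 2 ≤ 1 := by linarith [sq_nonneg ‖z.1‖]
      nlinarith [norm_nonneg (z.2 i)]
  exact (measure_mono h1).trans_lt Metric.isBounded_closedBall.measure_lt_top

end Pool.Agent.N438.RJ
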